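import Pool.Agent.Q53.DP.Cheap
import Pool.Agent.Q53.DP.Five
import Pool.Agent.W276.Link

/-!
# `D(n)` is unbounded

Partitions of `n` into distinct primes: the number `M(n)` of parts of the longest partition exceeds the
number of parts of the partition with the largest product by more than any constant `C`, for suitable `n`.

Proof. (1) There are arbitrarily large `d` for which the set `T` of primes with sum `d` and the least
product has `C + 6` elements: if `T` is such a set for `s`, the next `d` is `s + q`, where the prime `q` is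
chosen by Dirichlet's theorem such that `d - t` is composite for all small `t ≠ s`. (2) Every large
`d` is a sum of at most five distinct primes (almost all even numbers are sums of two primes in many ways).
(3) Let `n` be the sum of all primes `≤ N! + 1` minus `d`, with `N` large in terms of `d`. As no prime
lies in `(N! + 1, N! + N]`, the partition of `n` with the largest product consists of all primes
`≤ N! + 1` outside `T`; removing instead the at most five primes of (2) one obtains a longer partition.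
-/

set_option autoImplicit false

open Finset Pool.Agent.Q53.DP

namespace Pool.Agent.Results.MP_60b32f_nt.Unbounded

/-- the partitions of `n` into distinct primes: the finite sets of primes with sum `n` -/
def Partitions (n : ℕ) : Set (Finset ℕ) := {S | (∀ p ∈ S, p.Prime) ∧ ∑ p ∈ S, p = n}

/-- the largest number of parts -/
noncomputable def M (n : ℕ) : ℕ := sSup {k : ℕ | ∃ S ∈ Partitions n, S.card = k}

/-- `S` is the partition `S^*(n)` of largest product -/
def IsStar (n : ℕ) (S : Finset ℕ) : Prop :=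
  S ∈ Partitions n ∧ ∀ T ∈ Partitions n, ∏ p ∈ T, p ≤ ∏ p ∈ S, p

theorem bdd (n : ℕ) : BddAbove {k : ℕ | ∃ S ∈ Partitions n, S.card = k} := by
  refine ⟨n, ?_⟩
  rintro k ⟨S, hS, rfl⟩
  rw [← hS.2, card_eq_sum_ones]
  apply sum_le_sum
  intro p hp
  exact (hS.1 p hp).pos

/-- For every `C` there is `n` which has a unique partition `S` into distinct primes with the largest product,
and `M(n) > |S| + C`; that is, `D(n) > C`. -/
theorem result (C : ℕ) : ∃ n : ℕ, 2 ≤ n ∧ ∃ S : Finset ℕ, IsStar n S ∧ (∀ S', IsStar n S' → S' = S) ∧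
    S.card + C < M n := by
  classical
  obtain ⟨d0, hd0⟩ := five Pool.Agent.W276.Link.many
  obtain ⟨T, hT, hTc, hTd⟩ := cheap_exists (C + 5) d0
  set d := ∑ p ∈ T, p with hd
  obtain ⟨U, hUc, hUp, hUd⟩ := hd0 d hTd
  set P := ∏ p ∈ T, p with hP
  have hP1 : 1 ≤ P := one_le_prod T fun p hp => (hT.1 p hp).two_le
  set N := 9 * P + d + 10 with hN
  set y := N.factorial + 1 with hy
  have hNy : N < y := by
    have := Nat.self_le_factorial N
    omega
  set Q := (range (y + 1)).filter Nat.Prime with hQ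
  have hgap : ∀ x : ℕ, x.Prime → y < x → y + N ≤ x := by
    intro x hx hyx
    by_contra hcon
    push Not at hcon
    obtain ⟨k, rfl⟩ : ∃ k, x = N.factorial + k := ⟨x - N.factorial, by omega⟩
    have h1 : k ∣ N.factorial := Nat.dvd_factorial (by omega) (by omega)
    have h2 : k ∣ N.factorial + k := Nat.dvd_add h1 (dvd_refl k)
    rcases (Nat.dvd_prime hx).1 h2 with h3 | h3
    · omega
    · have := Nat.factorial_pos N
      omega
  have hle : ∀ V : Finset ℕ, ∑ p ∈ V, p = d → (∀ p ∈ V, p.Prime) → V ⊆ Q := by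
    intro V hV hVp p hp
    rw [hQ, mem_filter, mem_range]
    have := single_le_sum (f := fun p : ℕ => p) (fun i _ => Nat.zero_le _) hp
    exact ⟨by omega, hVp p hp⟩
  have hTQ := hle T rfl hT.1
  have hUQ := hle U hUd hUp
  set n := ∑ p ∈ Q, p - d with hn
  have hdQ : d ≤ ∑ p ∈ Q, p := sum_le_sum_of_subset hTQ
  have hpart : ∀ V : Finset ℕ, ∑ p ∈ V, p = d → (∀ p ∈ V, p.Prime) → Q \ V ∈ Partitions n := by
    intro V hV hVp
    refine ⟨fun p hp => ?_, ?_⟩
    · exact (mem_filter.1 (mem_sdiff.1 hp).1).2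
    · have := sum_sdiff (f := fun p => p) (hle V hV hVp)
      omega
  have hS := hpart T rfl hT.1
  have hprodQ : (∏ p ∈ Q \ T, p) * P = ∏ p ∈ Q, p := prod_sdiff hTQ
  have hQ0 : 0 < ∏ p ∈ Q, p := prod_pos fun p hp => (mem_filter.1 hp).2.pos
  -- all other partitions have a smaller product
  have hmax : ∀ S' ∈ Partitions n, S' ≠ Q \ T → ∏ p ∈ S', p < ∏ p ∈ Q \ T, p := by
    intro S' hS' hne
    set R := Q \ S' with hR
    set E := S' \ Q with hE
    have h1 : ∑ p ∈ S' ∩ Q, p + ∑ p ∈ E, p = n := by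
      rw [← hS'.2]
      exact sum_inter_add_sum_sdiff S' Q _
    have h2 : ∑ p ∈ S' ∩ Q, p + ∑ p ∈ R, p = ∑ p ∈ Q, p := by
      rw [inter_comm]
      exact sum_inter_add_sum_sdiff Q S' _
    have h3 : (∏ p ∈ S' ∩ Q, p) * ∏ p ∈ E, p = ∏ p ∈ S', p := prod_inter_mul_prod_sdiff S' Q _
    have h4 : (∏ p ∈ S' ∩ Q, p) * ∏ p ∈ R, p = ∏ p ∈ Q, p := by
      rw [inter_comm]
      exact prod_inter_mul_prod_sdiff Q S' _
    have h5 : ∑ p ∈ R, p = d + ∑ p ∈ E, p := by omega
    have hRQ : ∀ r ∈ R, r.Prime ∧ r ≤ y := by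
      intro r hr
      have := mem_filter.1 (mem_sdiff.1 hr).1
      exact ⟨this.2, by have := mem_range.1 this.1; omega⟩
    have key : P * ∏ p ∈ E, p < ∏ p ∈ R, p := by
      rcases E.eq_empty_or_nonempty with hE0 | hEne
      · rw [hE0, sum_empty, add_zero] at h5
        rw [hE0, prod_empty, mul_one]
        apply hT.2 R (fun p hp => (hRQ p hp).1) h5
        intro hRT
        apply hne
        have h6 : S' ⊆ Q := sdiff_eq_empty_iff_subset.1 hE0
        rw [← hRT, hR, sdiff_sdiff_right_self]
        exact (inter_eq_right.2 h6).symm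
      · apply exchange (y := y) (N := N) (d := d) (by omega) (by omega) (by omega) (by omega) R E
          (fun r hr => ⟨(hRQ r hr).1.two_le, (hRQ r hr).2⟩) _ hEne h5
        intro e he
        have h6 := mem_sdiff.1 he
        apply hgap e (hS'.1 e h6.1)
        by_contra hcon
        apply h6.2
        rw [hQ, mem_filter, mem_range]
        exact ⟨by omega, hS'.1 e h6.1⟩
    have hR0 : 0 < ∏ p ∈ R, p := prod_pos fun p hp => (hRQ p hp).1.pos
    have hI0 : 0 < ∏ p ∈ S' ∩ Q, p := prod_pos fun p hp => (hS'.1 p (mem_inter.1 hp).1).pos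
    -- multiply by `P` and by the product over `R`
    have h7 : (∏ p ∈ S', p) * (P * ∏ p ∈ R, p) < (∏ p ∈ Q \ T, p) * (P * ∏ p ∈ R, p) := by
      calc (∏ p ∈ S', p) * (P * ∏ p ∈ R, p) =
            ((∏ p ∈ S' ∩ Q, p) * ∏ p ∈ R, p) * (P * ∏ p ∈ E, p) := by rw [← h3]; ring
        _ = (∏ p ∈ Q, p) * (P * ∏ p ∈ E, p) := by rw [h4]
        _ < (∏ p ∈ Q, p) * ∏ p ∈ R, p := Nat.mul_lt_mul_of_pos_left key hQ0
        _ = (∏ p ∈ Q \ T, p) * (P * ∏ p ∈ R, p) := by rw [← hprodQ]; ring
    exact Nat.lt_of_mul_lt_mul_right h7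
  have hstar : IsStar n (Q \ T) := by
    refine ⟨hS, fun S' hS' => ?_⟩
    by_cases h : S' = Q \ T
    · rw [h]
    · exact (hmax S' hS' h).le
  have hcardT : (Q \ T).card + (C + 6) = Q.card := by
    rw [← hTc]
    exact card_sdiff_add_card_eq_card hTQ
  have hcardU : (Q \ U).card + U.card = Q.card := card_sdiff_add_card_eq_card hUQ
  refine ⟨n, ?_, Q \ T, hstar, ?_, ?_⟩
  · -- `n ≥ 2`
    have h1 : (Q \ U).Nonempty := by
      rw [← card_pos]
      omega
    obtain ⟨p, hp⟩ := h1
    have h2 := (hpart U hUd hUp)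
    have h3 := single_le_sum (f := fun p : ℕ => p) (fun i _ => Nat.zero_le _) hp
    have h4 := (h2.1 p hp).two_le
    have h5 := h2.2
    omega
  · intro S' hS'
    by_contra h
    exact absurd (hS'.2 _ hS) (not_le.2 (hmax S' hS'.1 h))
  · have h1 : (Q \ U).card ≤ M n := le_csSup (bdd n) ⟨Q \ U, hpart U hUd hUp, rfl⟩
    omega

end Pool.Agent.Results.MP_60b32f_nt.Unbounded
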